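import Mathlib
import Pool.Prelude.Def_F_c31e40fa
import Pool.Agent.N772.ST.Un
import Pool.Agent.N772.ST.Main2
import Pool.Agent.N772.PC.Bas
import Pool.Agent.Y298.CD.Fin
import Pool.Agent.H712R2.MultibrotConnected

/-!
# The structure of the Multibrot set near almost every boundary point: perfect small copies

Let `M` be the Multibrot set of degree `d ≥ 2` and let `c₀` be a point of `M` at which the critical
value has a Lyapunov exponent `χ > 0`; almost every external ray of `M` lands at such a point, with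
`χ = log d`. A parameter of `M` is called expanding if it satisfies the Collet-Eckmann condition and
its critical orbit stays away from the critical point; such parameters are limits of superattracting
parameters.

**Theorem.** For every `ε > 0` there are `τ` between `1 / (d - 1) - ε` and `1 / (d - 1)` and `α > 0`
such that for all small `R` the open set `W` of the parameters `b`, `|b - c₀| < R`, whose critical
orbits enter the disc of radius `R ^ τ` about the critical point has the following properties.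

* The parameters of `M`, `|b - c₀| < R`, which are not in `W` are expanding boundary points of `M` and
  limits of superattracting parameters.
* Every component `V` of `W` is the zone of a perfect small copy of `M`: if `n` is the first time of
  entry, then there are a superattracting parameter `c` of exact period `n` with `|c - c₀| ≤ 2 R` and
  explicit scales `l` and `m` such that, with the radius `S = 3 R ^ τ / |m| ≥ R ^ (-α)`,
  - up to the factors `1 ± R ^ α`, `V` is the disc of centre `c` and radius `|l| S / 3` (or its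
    intersection with the disc of radius `R` about `c₀`), and `|l| S ≤ R ^ (d / (d - 1) - ε)`;
  - the renormalised family `z ↦ f_(c + l κ) ^ n (m z) / m` is `R ^ α`-close to the family `z ^ d + κ`
    for all `|κ| ≤ S`, `|z| ^ d ≤ S`, and the orbits stay outside of the disc of radius `R ^ τ / 2`
    until the time `n`;
  - the component of `c` of the interior of `M`, the small copy of `M` in the zone (its hyperbolic
    part and its boundary), the domains of renormalization and the basin of `0` are those of `M`, up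
    to small errors.
* Every connected set of interior points or not expanding points of `M` which meets the disc of radius
  `R / 2` about `c₀` is in one component of `W`.

So every component of the interior of `M` near `c₀`, with or without attracting cycles, is in a
perfect zone, and so are all parameters near `c₀` at which density of hyperbolicity could fail.

Method. Let `N` be the first time at which the critical orbit of `b` enters the disc of radius `R ^ τ`
about the critical point; if there is no such time, then the results of `Pool.Agent.N253.EC` and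
`Pool.Agent.N253.LS` apply. A two-point telescoping formula (`Pool.Agent.N772.ST.Alg`) writes the
difference of two orbits, for different parameters and different initial points, as a sum over the
derivatives along the orbit of `b`; backward expansion of the entry shows that the sum is affine up to
a relative error `R ^ α` in the largest region in which the last points stay in the disc of radius
`8 R ^ τ` (`Pool.Agent.N772.ST.Reg`, `Eng`). The zones are separated by an infinite descent along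
curves which cross a thin annulus (`Pool.Agent.N772.ST.Chain`, `Comp`).
-/

set_option autoImplicit false

open MeasureTheory Filter Metric Topology Set

namespace Pool.Agent.Results.MP_af9036_an.PerfectZones

open N62a1eb23
open Pool.Agent.H713R2 (IsExteriorMap)

/-- The polynomial `z ^ d + c`. -/
def f (d : ℕ) (c : ℂ) : ℂ → ℂ := fun z => z ^ d + c

/-- `c₀` is in the Multibrot set and the critical value `c₀` has the Lyapunov exponent `χ > 0`. -/
def HasLyapunov (d : ℕ) (χ : ℝ) (c₀ : ℂ) : Prop :=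
  0 < χ ∧ c₀ ∈ multibrotSet d ∧
    Tendsto (fun n : ℕ => Real.log ‖deriv ((f d c₀)^[n]) c₀‖ / n) atTop (𝓝 χ)

/-- The ray of angle `θ` lands at `c`. -/
def Lands (ψ : ℂ → ℂ) (θ : ℝ) (c : ℂ) : Prop :=
  Tendsto (fun r : ℝ => ψ (r * Complex.exp (θ * Complex.I))) (𝓝[>] 1) (𝓝 c)

/-- The superattracting parameters. -/
def centres (d : ℕ) : Set ℂ := {c | ∃ n : ℕ, 1 ≤ n ∧ (f d c)^[n] 0 = 0}

/-- The expanding parameters of the Multibrot set: the Collet-Eckmann condition holds, and the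
critical orbit stays away from the critical point. -/
def Expanding (d : ℕ) : Set ℂ :=
  {c | c ∈ multibrotSet d ∧
    (∃ C lam : ℝ, 1 < lam ∧ ∀ n : ℕ, lam ^ n ≤ C * ‖deriv ((f d c)^[n]) c‖) ∧
    ∃ s : ℝ, 0 < s ∧ ∀ n : ℕ, 1 ≤ n → s ≤ ‖(f d c)^[n] 0‖}

/-- The interior points of the Multibrot set, and its parameters which are not expanding. -/
def Rest (d : ℕ) : Set ℂ :=
  {c | c ∈ multibrotSet d ∧ (c ∈ interior (multibrotSet d) ∨ c ∉ Expanding d)}

/-- The parameters `b` in the disc of radius `R` about `c₀` whose critical orbits enter the disc of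
radius `ρ` about the critical point. -/
def entering (d : ℕ) (c₀ : ℂ) (R ρ : ℝ) : Set ℂ :=
  {b | ‖b - c₀‖ < R ∧ ∃ j : ℕ, 1 ≤ j ∧ ‖(f d b)^[j] 0‖ < ρ}

/-- The critical orbit as a function of the parameter. -/
def crit (d n : ℕ) (c : ℂ) : ℂ := (f d c)^[n] 0

/-- The parameters with attracting cycles. -/
def hyperbolic (d : ℕ) : Set ℂ := {c | ∃ m z, IsAttractingCycle (f d c) m z}

/-- The component of the interior of the Multibrot set which contains `c`. -/
def component (d : ℕ) (c : ℂ) : Set ℂ := connectedComponentIn (interior (multibrotSet d)) c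

/-- The renormalised map: `f ^ n` at the parameter `c + l κ`, in the coordinate `z / m`. -/
noncomputable def ren (d n : ℕ) (c l m κ : ℂ) : ℂ → ℂ :=
  fun z => (f d (c + l * κ))^[n] (m * z) / m

/-- The scales: `l` for the parameters and `m` for the dynamics. -/
def Scales (d n : ℕ) (c l m : ℂ) : Prop :=
  l ≠ 0 ∧ m ≠ 0 ∧ m ^ (d - 1) * deriv ((f d c)^[n - 1]) c = 1 ∧ l * deriv (crit d n) c = m

/-- In the disc of radius `S` the renormalised family is close, up to the relative error `δ`, to the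
family `z ^ d + κ`, and the orbits do not return earlier to the disc of radius `S |m| / 6`. -/
def Zone (d n : ℕ) (c l m : ℂ) (S δ : ℝ) : Prop :=
  ∀ κ z : ℂ, ‖κ‖ ≤ S → ‖z‖ ^ d ≤ S →
    ‖ren d n c l m κ z - (z ^ d + κ)‖ ≤ δ * (‖κ‖ + ‖z‖ ^ d) ∧
    ‖deriv (ren d n c l m κ) z - d * z ^ (d - 1)‖ ≤ δ * (d * ‖z‖ ^ (d - 1)) ∧
    ∀ j : ℕ, 0 < j → j < n → S * ‖m‖ / 6 ≤ ‖(f d (c + l * κ))^[j] (m * z)‖

/-- The component of `c` is close to the copy of the main component
`{w - w ^ d : d |w| ^ (d - 1) < 1}`, in which `w` is the attracting fixed point, and the attracting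
periodic points and their multipliers are close to `w` and to `d w ^ (d - 1)`. -/
def Shape (d n : ℕ) (c l m : ℂ) (τ : ℝ) : Prop :=
  (∀ w : ℂ, d * ‖w‖ ^ (d - 1) ≤ 1 - Real.exp (-(τ / 2)) → c + l * (w - w ^ d) ∈ component d c ∧
    ∃ z : ℂ, ‖z - w‖ ≤ Real.exp (-(τ / 2)) ∧ (f d (c + l * (w - w ^ d)))^[n] (m * z) = m * z ∧
      ‖deriv ((f d (c + l * (w - w ^ d)))^[n]) (m * z)‖ < 1 ∧
      ‖deriv ((f d (c + l * (w - w ^ d)))^[n]) (m * z) - d * w ^ (d - 1)‖ ≤ Real.exp (-(τ / 2))) ∧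
  ∀ b ∈ component d c, ∃ w : ℂ, d * ‖w‖ ^ (d - 1) < 1 ∧
    ‖b - (c + l * (w - w ^ d))‖ ≤ ‖l‖ * Real.exp (-τ)

/-- The small copy of the Multibrot set, magnified by `1 / l`: the parameters `κ` for which the
orbit of `0` under `f_(c + l κ) ^ n` stays in the disc of radius `ρ |m|`. -/
def copy (d n : ℕ) (c l m : ℂ) (ρ : ℝ) : Set ℂ :=
  {κ | ‖κ‖ ≤ ρ ^ d ∧ ∀ j : ℕ, ‖(f d (c + l * κ))^[n * j] 0‖ ≤ ρ * ‖m‖}

/-- The small copy is close to the Multibrot set, and isolated. -/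
def Copies (d n : ℕ) (c l m : ℂ) (τ ε : ℝ) : Prop :=
  (∀ ρ : ℝ, 3 ≤ ρ → ρ ^ (2 * d) ≤ Real.exp τ → copy d n c l m ρ = copy d n c l m 3) ∧
  copy d n c l m 3 ⊆ thickening ε (multibrotSet d) ∧
  closure (hyperbolic d) ⊆
    thickening ε {κ | κ ∈ copy d n c l m 3 ∧ c + l * κ ∈ hyperbolic d} ∧
  ∀ κ : ℂ, ball κ ε ⊆ hyperbolic d → κ ∈ copy d n c l m 3 ∧ c + l * κ ∈ hyperbolic d

/-- `h` is a proper map of degree at most `d` of `U` onto the larger set `V`, with the only critical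
point `0`. -/
def PolynomialLike (d : ℕ) (h : ℂ → ℂ) (U V : Set ℂ) : Prop :=
  IsOpen U ∧ Bornology.IsBounded U ∧ closure U ⊆ V ∧ h '' U = V ∧
    (∀ K ⊆ V, IsCompact K → IsCompact {z | z ∈ U ∧ h z ∈ K}) ∧
    (∀ w ∈ V, {z | z ∈ U ∧ h z = w}.encard ≤ d) ∧ ∀ z ∈ U, deriv h z = 0 → z = 0

/-- The maps `f_(c + l κ) ^ n` are polynomial-like, of a neighbourhood of `0` in the disc of radius
`(2 ρ) ^ (1 / d) |m|` onto the disc of radius `ρ |m|`. -/
def Renormalizable (d n : ℕ) (c l m : ℂ) (τ : ℝ) : Prop :=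
  ∀ ρ : ℝ, 4 ≤ ρ → ρ ^ (2 * d) ≤ Real.exp τ → ∀ κ : ℂ, ‖κ‖ ≤ ρ - 1 →
    ∃ U : Set ℂ, (0 : ℂ) ∈ U ∧ (∀ z ∈ U, ‖z‖ ^ d ≤ 2 * ρ * ‖m‖ ^ d) ∧
      PolynomialLike d ((f d (c + l * κ))^[n]) U (ball 0 (ρ * ‖m‖))

/-- The component, containing `0`, of the basin of the superattracting point `0` of `f_c ^ n`. -/
def basin (d n : ℕ) (c : ℂ) : Set ℂ :=
  connectedComponentIn {z | Tendsto (fun j : ℕ => (f d c)^[n * j] z) atTop (𝓝 0)} 0

/-- This component is close to a round disc. -/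
def Round (d n : ℕ) (c m : ℂ) (τ : ℝ) : Prop :=
  ball 0 ((1 - Real.exp (-τ)) * ‖m‖) ⊆ basin d n c ∧
    basin d n c ⊆ ball 0 ((1 + Real.exp (-τ)) * ‖m‖)

/-- `V` is the zone of a perfect small copy. -/
def PerfectZone (d : ℕ) (c₀ : ℂ) (ε τ α R : ℝ) (V : Set ℂ) : Prop :=
  ∃ (n : ℕ) (c l m : ℂ) (S : ℝ),
    -- the period is the first time of entry
    0 < n ∧ (∀ b ∈ V, ∀ j : ℕ, 0 < j → j < n → R ^ τ ≤ ‖(f d b)^[j] 0‖) ∧
    (∃ b ∈ V, ‖(f d b)^[n] 0‖ < R ^ τ) ∧
    -- the centre and the scales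
    Function.minimalPeriod (f d c) 0 = n ∧ ‖c - c₀‖ ≤ 2 * R ∧ Scales d n c l m ∧
    S * ‖m‖ = 3 * R ^ τ ∧ R ^ (-α) ≤ S ∧ ‖l‖ * S ≤ R ^ ((d : ℝ) / (d - 1) - ε) ∧
    -- `V` is almost a round disc
    V ⊆ closedBall c ((1 + R ^ α) * (‖l‖ * S / 3)) ∧
    closedBall c ((1 - R ^ α) * (‖l‖ * S / 3)) ∩ ball c₀ R ⊆ V ∧
    -- the small copy is perfect
    Zone d n c l m S (R ^ α) ∧ Shape d n c l m (α * Real.log (1 / R)) ∧
    Copies d n c l m (α * Real.log (1 / R)) ε ∧
    Renormalizable d n c l m (α * Real.log (1 / R)) ∧ Round d n c m (α * Real.log (1 / R))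

/-- The structure of the parameter space near `c₀`. -/
def Structured (d : ℕ) (c₀ : ℂ) : Prop :=
  ∀ ε : ℝ, 0 < ε → ∃ τ α R₀ : ℝ, 1 / ((d : ℝ) - 1) - ε < τ ∧ τ < 1 / ((d : ℝ) - 1) ∧ 0 < α ∧
    0 < R₀ ∧ ∀ R : ℝ, 0 < R → R ≤ R₀ →
      -- the parameters which do not enter
      (∀ b ∈ multibrotSet d, ‖b - c₀‖ < R → b ∉ entering d c₀ R (R ^ τ) →
        b ∈ Expanding d ∧ b ∈ frontier (multibrotSet d) ∧ b ∈ closure (centres d)) ∧
      -- the components of the set of the parameters which enter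
      (∀ x ∈ entering d c₀ R (R ^ τ),
        PerfectZone d c₀ ε τ α R (connectedComponentIn (entering d c₀ R (R ^ τ)) x)) ∧
      -- connected sets of parameters
      ∀ Γ ⊆ Rest d, IsPreconnected Γ → ∀ x ∈ Γ, ‖x - c₀‖ ≤ R / 2 →
        x ∈ entering d c₀ R (R ^ τ) ∧ Γ ⊆ connectedComponentIn (entering d c₀ R (R ^ τ)) x

open Pool.Agent.N772.PC

theorem deriv_ren {d n : ℕ} {c l m κ z : ℂ} (hm : m ≠ 0) :
    deriv (ren d n c l m κ) z = deriv ((f d (c + l * κ))^[n]) (m * z) := by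
  have := re_deriv (d := d) (n := n) (c := c) (l := l) (κ := κ) hm 1 z
  rw [Function.iterate_one, mul_one] at this
  exact this

/-- the consequences of universality -/
theorem consequences {d : ℕ} (hd : 2 ≤ d) {ε : ℝ} (hε : 0 < ε) : ∃ B : ℝ, 0 ≤ B ∧
    ∀ τ τ₁ : ℝ, 0 ≤ τ → τ + B ≤ τ₁ → ∀ (n : ℕ) (c l m : ℂ), 1 ≤ n → l ≠ 0 → m ≠ 0 →
      Pool.Agent.H712R2.P d n c = 0 → Un d n c l m τ₁ →
        Shape d n c l m τ ∧ Copies d n c l m τ ε ∧ Renormalizable d n c l m τ ∧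
          Round d n c m τ := by
  have hdR : (2 : ℝ) ≤ d := by exact_mod_cast hd
  obtain ⟨η₁, hη₁, H₁⟩ := hyp_uniform hd hε
  obtain ⟨η₂, hη₂, H₂⟩ := esc_uniform (d := d) hε
  obtain ⟨η₃, hη₃, H₃⟩ := clo_uniform hd hε
  obtain ⟨η, hη⟩ : ∃ η, η = min (min η₁ η₂) (min η₃ (1 / 4)) := ⟨_, rfl⟩
  have hη0 : 0 < η := by rw [hη]; positivity
  have l1 : η ≤ η₁ := by rw [hη]; exact (min_le_left _ _).trans (min_le_left _ _)
  have l2 : η ≤ η₂ := by rw [hη]; exact (min_le_left _ _).trans (min_le_right _ _)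
  have l3 : η ≤ η₃ := by rw [hη]; exact (min_le_right _ _).trans (min_le_left _ _)
  have l4 : η ≤ 1 / 4 := by rw [hη]; exact (min_le_right _ _).trans (min_le_right _ _)
  obtain ⟨A, hA⟩ : ∃ A : ℝ, A = 9 ^ d * (d ^ 2 * 2 ^ (d + 2) * 2 + (3 + 2 * d)) := ⟨_, rfl⟩
  have hA0 : 0 < A := by rw [hA]; positivity
  obtain ⟨B, hB⟩ : ∃ B : ℝ, B = max (max (Real.log (9 ^ d / η)) (Real.log A))
    (max (-Real.log η) 0) := ⟨_, rfl⟩
  have b1 : Real.log (9 ^ d / η) ≤ B := by rw [hB]; exact (le_max_left _ _).trans (le_max_left _ _)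
  have b2 : Real.log A ≤ B := by rw [hB]; exact (le_max_right _ _).trans (le_max_left _ _)
  have b3 : -Real.log η ≤ B := by rw [hB]; exact (le_max_left _ _).trans (le_max_right _ _)
  have b4 : 0 ≤ B := by rw [hB]; exact (le_max_right _ _).trans (le_max_right _ _)
  refine ⟨B, b4, fun τ τ₁ hτ0 hττ n c l m hn hl hm hP hU => ?_⟩
  have hle : τ ≤ τ₁ := by linarith
  have hn1 : Real.log (9 ^ d / η) ≤ τ₁ := by linarith
  have hn2 : Real.log A ≤ τ₁ - τ := by linarith
  have hn3 : -Real.log η ≤ τ₁ - τ := by linarith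
  -- the errors
  have e1 : (9 : ℝ) ^ d * Real.exp (-τ₁) ≤ η := by
    have h1 : (9 : ℝ) ^ d / η ≤ Real.exp τ₁ := (Real.log_le_iff_le_exp (by positivity)).1 hn1
    rw [div_le_iff₀ hη0] at h1
    rw [Real.exp_neg, ← div_eq_mul_inv, div_le_iff₀ (Real.exp_pos _)]
    linarith
  have e2 : A * Real.exp (-τ₁) ≤ Real.exp (-τ) := by
    have h1 : A ≤ Real.exp (τ₁ - τ) := (Real.log_le_iff_le_exp hA0).1 hn2
    calc A * Real.exp (-τ₁) ≤ Real.exp (τ₁ - τ) * Real.exp (-τ₁) := by gcongr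
      _ = Real.exp (-τ) := by rw [← Real.exp_add]; congr 1; ring
  have e3 : Real.exp τ * Real.exp (-τ₁) ≤ η := by
    rw [← Real.exp_add, ← Real.exp_log hη0]
    apply Real.exp_le_exp.2
    linarith
  have e4 : (9 : ℝ) ^ d * Real.exp (-τ₁) ≤ 1 / 4 := e1.trans l4
  have hexp : Real.exp (-τ₁) ≤ Real.exp (-τ) := Real.exp_le_exp.2 (by linarith)
  refine ⟨⟨?_, ?_⟩, ⟨?_, ?_, ?_, ?_⟩, ?_, ?_⟩
  · intro w hw
    have hs0 : 0 < Real.exp (-(τ / 2)) := Real.exp_pos _
    have hs1 : Real.exp (-(τ / 2)) ≤ 1 := by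
      have : 0 ≤ d * ‖w‖ ^ (d - 1) := by positivity
      linarith
    have hs2 : (9 : ℝ) ^ d * Real.exp (-τ₁) ≤ Real.exp (-(τ / 2)) *
        (Real.exp (-(τ / 2)) / (d ^ 2 * 2 ^ (d + 2))) / 2 := by
      have h1 : Real.exp (-(τ / 2)) * Real.exp (-(τ / 2)) = Real.exp (-τ) := by
        rw [← Real.exp_add]; congr 1; ring
      have h2 : Real.exp (-(τ / 2)) * (Real.exp (-(τ / 2)) / (d ^ 2 * 2 ^ (d + 2))) / 2 =
          Real.exp (-τ) / (d ^ 2 * 2 ^ (d + 2) * 2) := by
        rw [← h1]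
        field_simp
      rw [h2, le_div_iff₀ (by positivity)]
      refine le_trans ?_ e2
      rw [hA]
      have h3 : 0 < Real.exp (-τ₁) := Real.exp_pos _
      have h4 : (9 : ℝ) ^ d * (d ^ 2 * 2 ^ (d + 2) * 2) ≤
          9 ^ d * (d ^ 2 * 2 ^ (d + 2) * 2 + (3 + 2 * d)) := by
        gcongr
        linarith
      calc (9 : ℝ) ^ d * Real.exp (-τ₁) * (d ^ 2 * 2 ^ (d + 2) * 2) =
            9 ^ d * (d ^ 2 * 2 ^ (d + 2) * 2) * Real.exp (-τ₁) := by ring
        _ ≤ _ := by gcongr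
    exact ⟨inner hd hn hm hU e4 hs0 hs1 hs2 hw, inner_pt hd hm hU e4 hs0 hs1 hs2 hw⟩
  · intro b hb
    obtain ⟨w, h1, h2⟩ := outer' hd hn hl hm hP hU e4 hb
    refine ⟨w, h1, h2.trans ?_⟩
    rw [mul_comm]
    gcongr
    refine le_trans ?_ e2
    rw [hA]
    have h4 : (9 : ℝ) ^ d * (3 + 2 * d) ≤ 9 ^ d * (d ^ 2 * 2 ^ (d + 2) * 2 + (3 + 2 * d)) := by
      have h5 : 0 ≤ (d : ℝ) ^ 2 * 2 ^ (d + 2) * 2 := by positivity
      exact mul_le_mul_of_nonneg_left (by linarith) (by positivity)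
    calc (3 + 2 * d) * (9 ^ d * Real.exp (-τ₁)) = 9 ^ d * (3 + 2 * d) * Real.exp (-τ₁) := by ring
      _ ≤ _ := by gcongr
  · intro ρ hρ hρτ
    have hρ0 : 0 ≤ ρ := by linarith
    apply Subset.antisymm
    · rintro κ ⟨h1, h2⟩
      have h3 : ∀ z : ℂ, ‖z‖ ≤ ρ → ‖re d n c l m κ z - (z ^ d + κ)‖ ≤ 1 / 4 := by
        intro z hz
        have h4 : ρ ^ d ≤ Real.exp τ₁ := by
          have h5 : ρ ^ d ≤ ρ ^ (2 * d) := pow_le_pow_right₀ (by linarith) (by omega)
          exact (h5.trans hρτ).trans (Real.exp_le_exp.2 hle)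
        obtain ⟨u1, -⟩ := hU (ρ ^ d) (one_le_pow₀ (by linarith)) h4 κ z h1 (by gcongr)
        refine u1.trans ?_
        rw [← pow_mul, mul_comm d 2]
        calc ρ ^ (2 * d) * Real.exp (-τ₁) ≤ Real.exp τ * Real.exp (-τ₁) := by gcongr
          _ ≤ 1 / 4 := e3.trans l4
      obtain ⟨h5, h6⟩ := isolate (κ := κ) hd le_rfl h3 (fun j => by
        rw [re_iter' hm, mul_zero, norm_div, div_le_iff₀ (norm_pos_iff.2 hm)]
        exact h2 j)
      refine ⟨h5.trans (le_self_pow₀ (by norm_num) (by omega)), fun j => ?_⟩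
      have h7 := h6 j
      rw [re_iter' hm, mul_zero, norm_div, div_le_iff₀ (norm_pos_iff.2 hm)] at h7
      exact h7
    · rintro κ ⟨h1, h2⟩
      exact ⟨h1.trans (by gcongr), fun j => (h2 j).trans (by gcongr)⟩
  · rintro κ ⟨h1, h2⟩
    have hcl := hU.cl hm e4 h1
    obtain ⟨h5, h6⟩ := isolate (ρ := 3) (κ := κ) hd e4 (fun z hz => (hcl.2 z hz).1) (fun j => by
      rw [re_iter' hm, mul_zero, norm_div, div_le_iff₀ (norm_pos_iff.2 hm)]
      exact h2 j)
    rw [Metric.mem_thickening_iff]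
    by_contra hcon
    push Not at hcon
    obtain ⟨j, hj⟩ := H₂ κ h5 hcon _ (hcl.mono (e1.trans l2))
    exact absurd (h6 j) (not_le.2 hj)
  · intro κ hκ
    obtain ⟨κ', h1, h2, h3⟩ := H₃ κ hκ
    have h4 : ‖κ'‖ ≤ 3 ^ d := by
      have : (3 : ℝ) ≤ 3 ^ d := le_self_pow₀ (by norm_num) (by omega)
      linarith
    obtain ⟨h5, h6⟩ := (h3 _ ((hU.cl hm e4 h4).mono (e1.trans l3))).back hm hn
    rw [Metric.mem_thickening_iff]
    exact ⟨κ', ⟨⟨h4, h6⟩, h5⟩, h1⟩
  · intro κ hκ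
    have h4 : ‖κ‖ ≤ 3 ^ d := by
      have h1 : κ ∈ Pool.Agent.H462R2.AD.hyp d := hκ (mem_ball_self hε)
      have hM : κ ∈ multibrotSet d := interior_subset (Pool.Agent.R240.Alm.att_interior hd h1)
      have h2 := (Pool.Agent.H712R2.mem_multibrot_iff hd κ).1 hM 1
      rw [Pool.Agent.H712R2.P_succ, Pool.Agent.H712R2.P_zero, zero_pow (by omega), zero_add] at h2
      have : (3 : ℝ) ≤ 3 ^ d := le_self_pow₀ (by norm_num) (by omega)
      linarith
    obtain ⟨h5, h6⟩ := (H₁ κ hκ _ ((hU.cl hm e4 h4).mono (e1.trans l1))).back hm hn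
    exact ⟨⟨h4, h6⟩, h5⟩
  · intro ρ hρ hρτ κ hκ
    have hρd : ρ ≤ ρ ^ d := le_self_pow₀ (by linarith) (by omega)
    have h4 : ρ ^ d ≤ Real.exp τ₁ := by
      have h5 : ρ ^ d ≤ ρ ^ (2 * d) := pow_le_pow_right₀ (by linarith) (by omega)
      exact (h5.trans hρτ).trans (Real.exp_le_exp.2 hle)
    have h6 : (ρ ^ d) ^ 2 * Real.exp (-τ₁) ≤ 1 / 4 := by
      rw [← pow_mul, mul_comm d 2]
      calc ρ ^ (2 * d) * Real.exp (-τ₁) ≤ Real.exp τ * Real.exp (-τ₁) := by gcongr
        _ ≤ 1 / 4 := e3.trans l4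
    have h7 : ∀ z : ℂ, ‖z‖ ≤ ρ → ‖re d n c l m κ z - (z ^ d + κ)‖ ≤ 1 / 4 ∧
        ‖deriv (re d n c l m κ) z - d * z ^ (d - 1)‖ ≤ 1 / 4 := by
      intro z hz
      obtain ⟨u1, u2⟩ := hU (ρ ^ d) (one_le_pow₀ (by linarith)) h4 κ z (by linarith) (by gcongr)
      refine ⟨u1.trans h6, ?_⟩
      have h8 : deriv (re d n c l m κ) z = deriv ((f d (c + l * κ))^[n]) (m * z) :=
        deriv_ren hm
      rw [h8]
      exact u2.trans h6
    exact polylike' hd hn hρ le_rfl hκ (fun z hz => (h7 z hz).1) (fun z hz => (h7 z hz).2) hm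
  · apply bas_orig hd hn hm hP hU e4
    refine le_trans ?_ e2
    rw [hA]
    have h3 : (9 : ℝ) ^ d * 2 ≤ 9 ^ d * (d ^ 2 * 2 ^ (d + 2) * 2 + (3 + 2 * d)) := by
      have h5 : 0 ≤ (d : ℝ) ^ 2 * 2 ^ (d + 2) * 2 := by positivity
      exact mul_le_mul_of_nonneg_left (by linarith) (by positivity)
    calc 2 * (9 ^ d * Real.exp (-τ₁)) = 9 ^ d * 2 * Real.exp (-τ₁) := by ring
      _ ≤ _ := by gcongr

/-- Expanding parameters are limits of superattracting parameters. -/
theorem expanding_subset {d : ℕ} (hd : 2 ≤ d) : Expanding d ⊆ closure (centres d) := by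
  rintro c₁ ⟨hM, ⟨C, lam, hlam, hexp⟩, s, hs, hrec⟩
  have hdR : (2 : ℝ) ≤ d := by exact_mod_cast hd
  have hd1 : (0 : ℝ) < (d : ℝ) - 1 := by linarith
  have hCE : Y298.SH.CD.CEp d (max 1 C) lam c₁ :=
    Y298.SH.CD.cep_of_mem hd (le_max_left _ _) hlam hM (fun n => by
      refine (hexp n).trans ?_
      exact mul_le_mul_of_nonneg_right (le_max_right _ _) (norm_nonneg _))
  have hRec : Y298.SH.CD.Rec d (1 / s) 0 c₁ := by
    intro n
    rw [Real.rpow_zero, mul_one]
    have h1 := hrec (n + 1) (by omega)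
    have h2 : (f d c₁)^[n + 1] 0 = Y298.SH.CD.zz d c₁ n := by
      rw [Function.iterate_succ_apply]
      have h3 : f d c₁ 0 = c₁ := by
        unfold f
        rw [zero_pow (by omega), zero_add]
      rw [h3]
      rfl
    rw [h2] at h1
    rw [one_div, inv_mul_eq_div, le_div_iff₀ hs, one_mul]
    exact h1
  obtain ⟨K, hK, H⟩ := Y298.SH.CD.upper hd (max 1 C) lam (C₂ := 1 / s) (β := 0) (t := 1 / 2)
    (by positivity) le_rfl (by norm_num) (by norm_num)
  obtain ⟨σ, hσ⟩ : ∃ σ : ℝ, σ = (d : ℝ) * (1 / 2) / (d - 1) := ⟨_, rfl⟩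
  have hσ0 : 0 < σ := by rw [hσ]; positivity
  rw [← hσ] at H
  -- `c₁` is not isolated
  have h0M : (0 : ℂ) ∈ multibrotSet d := by
    have h1 : ∀ k : ℕ, (fun z : ℂ => z ^ d + 0)^[k] 0 = 0 := by
      intro k
      induction k with
      | zero => rfl
      | succ k ih => rw [Function.iterate_succ_apply', ih]; simp; omega
    intro ht
    have h2 : Tendsto (fun _ : ℕ => (0 : ℂ)) atTop (Bornology.cobounded ℂ) :=
      ht.congr fun k => h1 k
    have h3 := (tendsto_norm_cobounded_atTop.comp h2).eventually_gt_atTop 1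
    obtain ⟨k, hk⟩ := h3.exists
    simp at hk
    linarith
  have hne : c₁ ≠ 0 := by
    intro h0
    have h1 := hrec 1 le_rfl
    rw [h0, Function.iterate_one] at h1
    unfold f at h1
    rw [zero_pow (by omega), add_zero, norm_zero] at h1
    linarith
  have hacc : AccPt c₁ (𝓟 (multibrotSet d)) :=
    (Pool.Agent.H712R2.isConnected_multibrot hd).isPreconnected.preperfect_of_nontrivial
      ⟨c₁, hM, 0, h0M, hne⟩ c₁ hM
  rw [accPt_iff_frequently] at hacc
  rw [Metric.mem_closure_iff]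
  intro ε hε
  have hlim : Tendsto (fun y : ℂ => K * ‖y - c₁‖ ^ σ + ‖y - c₁‖) (𝓝 c₁) (𝓝 0) := by
    have h1 : Tendsto (fun y : ℂ => ‖y - c₁‖) (𝓝 c₁) (𝓝 0) := by
      have h2 : Continuous (fun y : ℂ => ‖y - c₁‖) := by fun_prop
      simpa using h2.tendsto c₁
    have h3 : Tendsto (fun y : ℂ => K * ‖y - c₁‖ ^ σ) (𝓝 c₁) (𝓝 (K * 0)) := by
      refine Tendsto.const_mul K ?_
      have h4 : ContinuousAt (fun x : ℝ => x ^ σ) 0 := Real.continuousAt_rpow_const 0 σ (Or.inr hσ0.le)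
      have h5 := h4.tendsto.comp h1
      rw [Real.zero_rpow hσ0.ne'] at h5
      exact h5
    simpa using h3.add h1
  obtain ⟨y, ⟨hy1, hy2⟩, hy3⟩ := (hacc.and_eventually (hlim.eventually_lt_const hε)).exists
  obtain ⟨-, ⟨c', h1, p, hp, h2, -⟩, -, -⟩ := H c₁ hCE hRec y hy2 hy1
  refine ⟨c', ⟨p, hp, h2⟩, ?_⟩
  rw [dist_comm, dist_eq_norm]
  have h3 := norm_add_le (c' - y) (y - c₁)
  rw [sub_add_sub_cancel] at h3
  linarith

theorem entering_eq {d : ℕ} (hd : 2 ≤ d) (c₀ : ℂ) (R ρ : ℝ) :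
    Pool.Agent.N772.ST.WW d c₀ R ρ = entering d c₀ R ρ := by
  ext b
  unfold Pool.Agent.N772.ST.WW entering
  simp only [mem_ofPred_eq]
  refine and_congr_right fun _ => ⟨?_, ?_⟩
  · rintro ⟨j, hj⟩
    rw [Pool.Agent.N772.ST.zo_eq hd] at hj
    exact ⟨j + 1, by omega, hj⟩
  · rintro ⟨j, hj1, hj⟩
    obtain ⟨i, rfl⟩ : ∃ i, j = i + 1 := ⟨j - 1, by omega⟩
    refine ⟨i, ?_⟩
    rw [Pool.Agent.N772.ST.zo_eq hd]
    exact hj

/-- near a parameter with a Lyapunov exponent -/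
theorem near {d : ℕ} (hd : 2 ≤ d) {χ : ℝ} {c₀ : ℂ} (h : HasLyapunov d χ c₀) : Structured d c₀ := by
  intro ε hε
  have hdR : (2 : ℝ) ≤ d := by exact_mod_cast hd
  have hd1 : (0 : ℝ) < (d : ℝ) - 1 := by linarith
  have hL : Pool.Agent.Y298.CA.Lyap d χ c₀ := ⟨h.1, h.2.1, h.2.2⟩
  obtain ⟨τ, α, R₁, hτ1, hτ2, hτ0, hα, hR₁, hR14, H⟩ := Pool.Agent.N772.ST.main2 hd hL hε
  obtain ⟨B, hB0, HB⟩ := consequences hd hε
  obtain ⟨q, hq, hq1, Q⟩ := Pool.Agent.N253.SM.small_pow (6 * d) (α / 2) (by linarith)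
  obtain ⟨β, hβ⟩ : ∃ β, β = α / 4 := ⟨_, rfl⟩
  have hβ0 : 0 < β := by rw [hβ]; linarith
  refine ⟨τ, β, min (min R₁ q) (Real.exp (-(B / β))), hτ1, by rwa [lt_div_iff₀ hd1], hβ0,
    by positivity, ?_⟩
  intro R hR hRR
  have h1 : R ≤ R₁ := hRR.trans ((min_le_left _ _).trans (min_le_left _ _))
  have h2 : R ≤ q := hRR.trans ((min_le_left _ _).trans (min_le_right _ _))
  have h3 : R ≤ Real.exp (-(B / β)) := hRR.trans (min_le_right _ _)
  have hR1 : R ≤ 1 := by linarith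
  obtain ⟨hθ, Ha, Hb⟩ := H R hR h1
  have hθ0 : 0 < R ^ α := Real.rpow_pos_of_pos hR _
  -- the exponents
  obtain ⟨L, hLe⟩ : ∃ L, L = Real.log (1 / R) := ⟨_, rfl⟩
  have hLR : L = -Real.log R := by rw [hLe, one_div, Real.log_inv]
  have hL0 : B / β ≤ L := by
    rw [hLR]
    have := (Real.log_le_iff_le_exp hR).2 h3
    linarith
  have hL1 : B ≤ β * L := by
    rw [div_le_iff₀ hβ0] at hL0
    linarith
  have hpow : ∀ s : ℝ, R ^ s = Real.exp (-(s * L)) := by
    intro s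
    rw [Real.rpow_def_of_pos hR, hLR]
    congr 1
    ring
  have hQ : 6 * d * R ^ (α / 2) ≤ 1 := Q R hR h2
  have hp2 : 0 < R ^ (α / 2) := Real.rpow_pos_of_pos hR _
  have hα2 : R ^ α = R ^ (α / 2) * R ^ (α / 2) := by
    rw [← Real.rpow_add hR]; congr 1; ring
  have hpβ : R ^ (α / 2) ≤ R ^ β := Real.rpow_le_rpow_of_exponent_ge hR hR1 (by rw [hβ]; linarith)
  have hδ8 : 8 * R ^ α ≤ R ^ β := by
    have e2 : 8 * R ^ (α / 2) ≤ 1 := by nlinarith
    calc 8 * R ^ α = (8 * R ^ (α / 2)) * R ^ (α / 2) := by rw [hα2]; ring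
      _ ≤ 1 * R ^ β := by gcongr
      _ = _ := one_mul _
  have hδ : 3 * R ^ α ≤ R ^ β := by linarith
  have hout : ∀ b ∈ multibrotSet d, ‖b - c₀‖ < R → b ∉ entering d c₀ R (R ^ τ) →
      b ∈ Expanding d ∧ b ∈ frontier (multibrotSet d) := by
    intro b hb hbR hbW
    obtain ⟨⟨⟨⟨C₁, lam, hCE⟩, -⟩, s, hs0, hs⟩, hi⟩ := Ha b hb hbR (fun j hj => by
      by_contra hcon
      push Not at hcon
      exact hbW ⟨hbR, j, hj, hcon⟩)
    exact ⟨⟨hb, ⟨C₁, lam, hCE.lam1, hCE.exp⟩, s, hs0, hs⟩, subset_closure hb, hi⟩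
  refine ⟨fun b hb hbR hbW => ?_, ?_, ?_⟩
  · obtain ⟨g1, g2⟩ := hout b hb hbR hbW
    exact ⟨g1, g2, expanding_subset hd g1⟩
  · intro x hx
    rw [← entering_eq hd] at hx ⊢
    obtain ⟨n, c, l, m, S, hC, hSm, hS, hcc, hlS, hlS2, v1, v2, v3, v4⟩ := Hb x hx
    have hUn : Un d n c l m (2 * (β * L)) := by
      refine hC.un hd (by positivity) ?_ ?_
      · have e1 : Real.exp (2 * (β * L)) = R ^ (-(α / 2)) := by
          rw [hpow, hβ]
          congr 1
          ring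
        rw [e1]
        have e2 : R ^ (-(α / 2)) ≤ R ^ (-α) := Real.rpow_le_rpow_of_exponent_ge hR hR1 (by linarith)
        have e3 : 0 < R ^ (-α) := Real.rpow_pos_of_pos hR _
        linarith
      · have e1 : Real.exp (-(2 * (β * L))) = R ^ (α / 2) := by
          rw [hpow, hβ]
          congr 1
          ring
        rw [e1, hα2]
        calc 2 * (d : ℝ) * (3 * (R ^ (α / 2) * R ^ (α / 2))) = (6 * d * R ^ (α / 2)) * R ^ (α / 2) := by
              ring
          _ ≤ 1 * R ^ (α / 2) := by gcongr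
          _ = _ := one_mul _
    have hP : Pool.Agent.H712R2.P d n c = 0 := hC.zero
    obtain ⟨g1, g2, g3, g4⟩ := HB (β * L) (2 * (β * L)) (by linarith) (by linarith) n c l m hC.k1
      hC.l0 hC.m0 hP hUn
    have hS0 : 0 < S := lt_of_lt_of_le (by positivity) hS
    have hlS0 : 0 ≤ ‖l‖ * S / 3 := by positivity
    refine ⟨n, c, l, m, S, hC.k1, v1, v2, ?_, hcc, ⟨hC.l0, hC.m0, hC.sm, hC.sl⟩, hSm, ?_, hlS, ?_, ?_,
      ?_, ?_⟩
    · -- the exact period
      have hper : Function.IsPeriodicPt (f d c) n 0 := hC.zero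
      have hmp : 0 < Function.minimalPeriod (f d c) 0 := hper.minimalPeriod_pos hC.k1
      have hle : Function.minimalPeriod (f d c) 0 ≤ n := hper.minimalPeriod_le hC.k1
      rcases hle.lt_or_eq with hlt | heq
      · exact absurd (Function.isPeriodicPt_minimalPeriod (f d c) 0) (hC.ne _ hmp hlt)
      · exact heq
    · have e2 : R ^ (-β) ≤ R ^ (-α) := Real.rpow_le_rpow_of_exponent_ge hR hR1 (by rw [hβ]; linarith)
      have e3 : 0 < R ^ (-α) := Real.rpow_pos_of_pos hR _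
      linarith
    · intro t ht
      rw [mem_closedBall, dist_eq_norm]
      refine (v3 t ht).trans ?_
      exact mul_le_mul_of_nonneg_right (by linarith) hlS0
    · rintro t ⟨ht1, ht2⟩
      rw [mem_closedBall, dist_eq_norm] at ht1
      rw [mem_ball, dist_eq_norm] at ht2
      refine v4 t ht2 (ht1.trans ?_)
      exact mul_le_mul_of_nonneg_right (by linarith) hlS0
    · intro κ z hκ hz
      obtain ⟨a1, a2, a3⟩ := hC.fam κ z hκ hz
      refine ⟨a1.trans ?_, ?_, a3⟩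
      · gcongr
      · rw [deriv_ren hC.m0]
        refine a2.trans ?_
        gcongr
    · rw [← hLe]
      exact ⟨g1, g2, g3, g4⟩
  · intro Γ hΓ hpre x hx hxR
    have hent : ∀ t ∈ Γ, ‖t - c₀‖ < R → t ∈ entering d c₀ R (R ^ τ) := by
      intro t ht htR
      by_contra hcon
      obtain ⟨hM, hor⟩ := hΓ ht
      obtain ⟨g1, g2⟩ := hout t hM htR hcon
      rcases hor with hi | hn
      · exact g2.2 hi
      · exact hn g1
    have hxW : x ∈ entering d c₀ R (R ^ τ) := hent x hx (by linarith)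
    refine ⟨hxW, ?_⟩
    rw [← entering_eq hd] at hxW hent ⊢
    obtain ⟨n, c, l, m, S, hC, hSm, hS, hcc, hlS, hlS2, v1, v2, v3, v4⟩ := Hb x hxW
    have hS0 : 0 < S := lt_of_lt_of_le (by positivity) hS
    have hlS0 : 0 ≤ ‖l‖ * S / 3 := by positivity
    have hsm : ∀ t ∈ connectedComponentIn (Pool.Agent.N772.ST.WW d c₀ R (R ^ τ)) x,
        ‖t - c‖ ≤ R / 40 := by
      intro t ht
      refine (v3 t ht).trans ?_
      calc (1 + 6 * R ^ α) * (‖l‖ * S / 3) ≤ (1 + 6 * (1 / 100)) * (‖l‖ * S / 3) := by gcongr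
        _ ≤ R / 40 := by linarith
    refine Pool.Agent.N772.ST.in_comp hxW (r := R / 20) (by linarith) ?_ hxR hpre hx hent
    intro t ht
    have e1 := hsm t ht
    have e2 := hsm x (mem_connectedComponentIn hxW)
    have e3 := norm_sub_le (t - c) (x - c)
    rw [sub_sub_sub_cancel_right] at e3
    linarith

theorem result (d : ℕ) (hd : 2 ≤ d) :
    -- near a parameter with a positive Lyapunov exponent
    (∀ (χ : ℝ) (c₀ : ℂ), HasLyapunov d χ c₀ → Structured d c₀) ∧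
    -- almost every external ray lands at such a parameter, and the exponent is `log d`
    (∃ ψ : ℂ → ℂ, IsExteriorMap (multibrotSet d) ψ) ∧
    ∀ ψ : ℂ → ℂ, IsExteriorMap (multibrotSet d) ψ →
      ∀ᵐ θ : ℝ, ∃ c₀ ∈ frontier (multibrotSet d),
        Lands ψ θ c₀ ∧ HasLyapunov d (Real.log d) c₀ ∧ Structured d c₀ := by
  obtain ⟨β, hβ⟩ := Pool.Agent.H713R2.exists_beta (d := d) hd
  refine ⟨fun χ c₀ h => near hd h, ⟨_, Pool.Agent.H713R2.exteriorMap_of_beta hβ⟩, ?_⟩
  intro ψ hψ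
  filter_upwards [Pool.Agent.Y272.TY.ae_neg' (Pool.Agent.Y272.TY.typical_all hd hβ)] with θ hθ
  obtain ⟨c₀, A, R, h⟩ := hθ
  obtain ⟨h1, h2, h3⟩ := Pool.Agent.Y298.CA.lyap_of_typ hd hβ h
  exact ⟨c₀, h.frontier hd hβ, h.tendsto_psi hβ hψ, ⟨h1, h2, h3⟩, near hd ⟨h1, h2, h3⟩⟩

end Pool.Agent.Results.MP_af9036_an.PerfectZones
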