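import Mathlib
import Pool.Prelude.Def_F_c31e40fa
import Pool.Agent.N896.MB.Law

/-!
# The superattracting parameters of period `n` near a typical boundary point of a Multibrot set

Let `c₀` be a point of the Multibrot set `M_d` at which the critical value has a Lyapunov exponent
`χ > 0`. At ALL radii `r` at once the number of the superattracting parameters of exact period `n`
in the disc of radius `r` about `c₀` is `d ^ n r ^ (log d / χ)` up to the factor `exp (o(n))`; it
vanishes for `r = exp (- (χ + ε) n)`. So the distance from `c₀` to the superattracting parameters of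
exact period `n` is `exp (- (χ + o(1)) n)`, for ALL `n` and not only along a sequence. Almost every
external ray lands at such a point, with `χ = log d`.

The starting library has the number of the parameters with `f^n(0) = 0` in the discs of radius
`exp (- β n)` for one fixed `β < χ` (`Pool/Agent/R240/Growth.lean`). New: uniformity in the radius,
exact periods, the threshold at `χ`, and the distance law.
-/

set_option autoImplicit false

open MeasureTheory Filter Metric Topology

namespace Pool.Agent.Results.MP_af9036_an.PeriodDistanceLaw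

open Pool.Agent.H713R2 (IsExteriorMap)

/-- The polynomial `z ^ d + c`. -/
def f (d : ℕ) (c : ℂ) : ℂ → ℂ := fun z => z ^ d + c

/-- The superattracting parameters of exact period `n`: the critical point `0` of `z ^ d + c` is
periodic with least period `n`. -/
def centres (d n : ℕ) : Set ℂ := {c | Function.minimalPeriod (f d c) 0 = n}

/-- The number of superattracting parameters of exact period `n` at distance less than `r` from
`c₀`. -/
noncomputable def number (d n : ℕ) (c₀ : ℂ) (r : ℝ) : ℕ :=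
  {c | c ∈ centres d n ∧ ‖c - c₀‖ < r}.ncard

/-- The distribution of the superattracting parameters near `c₀`, on the exponential scale, with
the exponent `χ`. -/
def Law (d : ℕ) (χ : ℝ) (c₀ : ℂ) : Prop :=
  -- the number of superattracting parameters of exact period `n`, in all discs about `c₀`
  (∀ ε : ℝ, 0 < ε → ∀ᶠ n : ℕ in atTop, ∀ r : ℝ, 0 < r → r ≤ 1 →
    (d : ℝ) ^ n * r ^ (Real.log d / χ) ≤ Real.exp (ε * n) * (1 + number d n c₀ r) ∧
    (number d n c₀ r : ℝ) ≤ Real.exp (ε * n) * (1 + (d : ℝ) ^ n * r ^ (Real.log d / χ))) ∧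
  -- there are none below the scale `exp (- χ n)`
  (∀ ε : ℝ, 0 < ε → ∀ᶠ n : ℕ in atTop, ∀ c ∈ centres d n,
    Real.exp (-((χ + ε) * n)) ≤ ‖c - c₀‖) ∧
  -- the distance
  Tendsto (fun n : ℕ => Real.log (infDist c₀ (centres d n)) / n) atTop (𝓝 (-χ))

theorem result (d : ℕ) (hd : 2 ≤ d) :
    -- the superattracting parameters are hyperbolic
    (∀ n : ℕ, 1 ≤ n → (centres d n).Finite ∧
      ∀ c ∈ centres d n, c ∈ N62a1eb23.multibrotSet d ∧
        N62a1eb23.IsAttractingCycle (fun z => z ^ d + c) n 0) ∧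
    -- parameters with a positive Lyapunov exponent at the critical value
    (∀ (χ : ℝ) (c₀ : ℂ), 0 < χ → c₀ ∈ N62a1eb23.multibrotSet d →
      Tendsto (fun n : ℕ => Real.log ‖deriv ((f d c₀)^[n]) c₀‖ / n) atTop (𝓝 χ) →
      Law d χ c₀) ∧
    -- almost every external ray lands at such a parameter, and the exponent is `log d`
    (∃ ψ : ℂ → ℂ, IsExteriorMap (N62a1eb23.multibrotSet d) ψ) ∧
    ∀ ψ : ℂ → ℂ, IsExteriorMap (N62a1eb23.multibrotSet d) ψ →
      ∀ᵐ θ : ℝ, ∃ c₀ ∈ frontier (N62a1eb23.multibrotSet d),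
        Tendsto (fun r : ℝ => ψ (r * Complex.exp (θ * Complex.I))) (𝓝[>] 1) (𝓝 c₀) ∧
        Tendsto (fun n : ℕ => Real.log ‖deriv ((f d c₀)^[n]) c₀‖ / n) atTop (𝓝 (Real.log d)) ∧
        Law d (Real.log d) c₀ := by
  have hset : ∀ (n : ℕ) (c₀ : ℂ) (r : ℝ),
      ({c | c ∈ centres d n ∧ ‖c - c₀‖ < r} : Set ℂ) = Pool.Agent.N896.MB.Ex d n c₀ r := by
    intro n c₀ r
    ext c
    constructor
    · rintro ⟨h1, h2⟩
      exact ⟨by rwa [mem_ball, dist_eq_norm], h1⟩
    · rintro ⟨h1, h2⟩
      exact ⟨h2, by rwa [mem_ball, dist_eq_norm] at h1⟩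
  have hnum : ∀ (n : ℕ) (c₀ : ℂ) (r : ℝ),
      number d n c₀ r = (Pool.Agent.N896.MB.Ex d n c₀ r).ncard := by
    intro n c₀ r
    unfold number
    rw [hset]
  have key : ∀ (χ : ℝ) (c₀ : ℂ), 0 < χ → c₀ ∈ N62a1eb23.multibrotSet d →
      Tendsto (fun n : ℕ => Real.log ‖deriv ((f d c₀)^[n]) c₀‖ / n) atTop (𝓝 χ) →
      Law d χ c₀ := by
    intro χ c₀ hχ hc₀ hlim
    have h : Pool.Agent.Y298.CA.Lyap d χ c₀ := ⟨hχ, hc₀, hlim⟩
    refine ⟨?_, ?_, Pool.Agent.N896.MB.dist_law hd h⟩
    · intro ε hε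
      filter_upwards [Pool.Agent.N896.MB.low_ex hd h hε, Pool.Agent.N896.MB.up_ex hd h hε]
        with n h1 h2 r hr0 hr1
      rw [hnum]
      exact ⟨h1 r hr0 hr1, h2 r hr0 hr1⟩
    · intro ε hε
      filter_upwards [Pool.Agent.N896.MB.none hd h (β := χ + ε) (by linarith)] with n h1 c hc
      by_contra hcon
      push Not at hcon
      have h2 : c ∈ Pool.Agent.R240.Cen d n c₀ (Real.exp (-((χ + ε) * n))) :=
        Pool.Agent.N896.MB.Ex_sub n _ ⟨by rwa [mem_ball, dist_eq_norm], hc⟩
      rw [h1] at h2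
      exact h2
  refine ⟨?_, key, ?_⟩
  · intro n hn
    refine ⟨?_, fun c hc => Pool.Agent.N896.MB.att d hd n hn c hc⟩
    have h1 := Pool.Agent.N896.MB.cen_all hd hn
    refine h1.subset ?_
    intro c hc
    exact Pool.Agent.N896.MB.per_zero hc
  · obtain ⟨β, hβ⟩ := Pool.Agent.H713R2.exists_beta (d := d) hd
    refine ⟨⟨_, Pool.Agent.H713R2.exteriorMap_of_beta hβ⟩, ?_⟩
    intro ψ hψ
    filter_upwards [Pool.Agent.Y272.TY.ae_neg' (Pool.Agent.Y272.TY.typical_all hd hβ)] with θ hθ
    obtain ⟨c₀, A, R, h⟩ := hθ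
    obtain ⟨h1, h2, h3⟩ := Pool.Agent.Y298.CA.lyap_of_typ hd hβ h
    exact ⟨c₀, h.frontier hd hβ, h.tendsto_psi hβ hψ, h3, key _ c₀ h1 h2 h3⟩

end Pool.Agent.Results.MP_af9036_an.PeriodDistanceLaw
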