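import Mathlib
import Pool.Prelude.Def_F_c31e40fa
import Pool.Agent.N253.MS.Ex

/-!
# Density of hyperbolicity at typical boundary points of a Multibrot set: the exact scaling

Let `c₀` be a point of the Multibrot set `M_d` at which the critical value has a Lyapunov exponent
`χ > 0`; almost every external ray lands at such a point, with `χ = log d`. Let `E = d / (d - 1)`.

* ALL parameters `c` of `M_d` near `c₀` are at distance at most `C |c - c₀| ^ σ`, for every
  `σ < E`, from superattracting parameters and from the complement of `M_d`.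
* The largest discs contained in `M_d ∩ D(c₀, r)` and in its hyperbolic part both have radius
  `r ^ (E + o(1))`, and the areas of these sets are `r ^ (2 E + o(1))`; so the exponent `E` cannot be
  improved, and the hyperbolic part has the same exponents as `M_d`.
* (New) Every superattracting parameter `c'` of exact period `n` at distance
  `exp (- (χ + o(1)) n)` from `c₀` - for all large `n` there are such `c'` - is the centre of a disc of
  radius `exp (- (χ E + o(1)) n)` of parameters with an attracting cycle of period `n`, and the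
  conformal radius of the component of `M_d` about `c'` is not larger than this.

The first two items are `Pool.Agent.Y298.CA.scal_all` of the starting library, which no result
states.
-/

set_option autoImplicit false

open MeasureTheory Filter Metric Topology

namespace Pool.Agent.Results.MP_af9036_an.ScalingLaw

open Pool.Agent.H713R2 (IsExteriorMap)

/-- The polynomial `z ^ d + c`. -/
def f (d : ℕ) (c : ℂ) : ℂ → ℂ := fun z => z ^ d + c

/-- The superattracting parameters of exact period `n`: the critical point `0` of `z ^ d + c` is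
periodic with least period `n`. -/
def centres (d n : ℕ) : Set ℂ := {c | Function.minimalPeriod (f d c) 0 = n}

/-- The hyperbolic parameters of the Multibrot set: those with an attracting cycle. -/
def hyperbolic (d : ℕ) : Set ℂ := {c | c ∈ N62a1eb23.multibrotSet d ∧
  ∃ (m : ℕ) (z : ℂ), N62a1eb23.IsAttractingCycle (f d c) m z}

/-- The radius of the largest discs contained in `S`. -/
noncomputable def inradius (S : Set ℂ) : ℝ := sSup {ρ : ℝ | 0 ≤ ρ ∧ ∃ c : ℂ, ball c ρ ⊆ S}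

/-- `F r` is `r ^ (e + o(1))` for `r → 0`. -/
def HasExponent (F : ℝ → ℝ) (e : ℝ) : Prop :=
  Tendsto (fun r : ℝ => Real.log (F r) / Real.log r) (𝓝[>] 0) (𝓝 e)

/-- The scaling of the Multibrot set and of its hyperbolic part at `c₀`. -/
def Scaling (d : ℕ) (χ : ℝ) (c₀ : ℂ) : Prop :=
  -- density of superattracting parameters, and of the complement, at all parameters near `c₀`
  (∀ σ : ℝ, 0 ≤ σ → σ < d / ((d : ℝ) - 1) → ∃ C : ℝ, 0 < C ∧
    ∀ c ∈ N62a1eb23.multibrotSet d, c ≠ c₀ →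
      (∃ (n : ℕ) (c' : ℂ), 1 ≤ n ∧ c' ∈ centres d n ∧ ‖c' - c‖ ≤ C * ‖c - c₀‖ ^ σ) ∧
      ∃ c' : ℂ, c' ∉ N62a1eb23.multibrotSet d ∧ ‖c' - c‖ ≤ C * ‖c - c₀‖ ^ σ) ∧
  -- the exponents of the largest discs and of the areas
  HasExponent (fun r => inradius (N62a1eb23.multibrotSet d ∩ ball c₀ r)) (d / ((d : ℝ) - 1)) ∧
  HasExponent (fun r => inradius (hyperbolic d ∩ ball c₀ r)) (d / ((d : ℝ) - 1)) ∧
  HasExponent (fun r => (volume (N62a1eb23.multibrotSet d ∩ ball c₀ r)).toReal)
    (2 * d / ((d : ℝ) - 1)) ∧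
  HasExponent (fun r => (volume (hyperbolic d ∩ ball c₀ r)).toReal) (2 * d / ((d : ℝ) - 1)) ∧
  -- the sizes of the hyperbolic components of exact period `n`, for all large `n`
  ∀ ε : ℝ, 0 < ε → ∃ δ : ℝ, 0 < δ ∧ ∀ᶠ n : ℕ in atTop,
    (∃ c' ∈ centres d n, ‖c' - c₀‖ ≤ Real.exp (-((χ - δ) * n))) ∧
    ∀ c' ∈ centres d n, ‖c' - c₀‖ ≤ Real.exp (-((χ - δ) * n)) →
      (∀ c : ℂ, ‖c - c'‖ < Real.exp (-((χ * (d / ((d : ℝ) - 1)) + ε) * n)) →
        ∃ z : ℂ, N62a1eb23.IsAttractingCycle (f d c) n z) ∧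
      ∀ γ : ℂ → ℂ, DifferentiableOn ℂ γ (ball 0 1) →
        (∀ t ∈ ball (0 : ℂ) 1, γ t ∈ N62a1eb23.multibrotSet d) → γ 0 = c' →
        ‖deriv γ 0‖ ≤ Real.exp (-((χ * (d / ((d : ℝ) - 1)) - ε) * n))

theorem result (d : ℕ) (hd : 2 ≤ d) :
    -- parameters with a positive Lyapunov exponent at the critical value
    (∀ (χ : ℝ) (c₀ : ℂ), 0 < χ → c₀ ∈ N62a1eb23.multibrotSet d →
      Tendsto (fun n : ℕ => Real.log ‖deriv ((f d c₀)^[n]) c₀‖ / n) atTop (𝓝 χ) →
      Scaling d χ c₀) ∧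
    -- almost every external ray lands at such a parameter, and the exponent is `log d`
    (∃ ψ : ℂ → ℂ, IsExteriorMap (N62a1eb23.multibrotSet d) ψ) ∧
    ∀ ψ : ℂ → ℂ, IsExteriorMap (N62a1eb23.multibrotSet d) ψ →
      ∀ᵐ θ : ℝ, ∃ c₀ ∈ frontier (N62a1eb23.multibrotSet d),
        Tendsto (fun r : ℝ => ψ (r * Complex.exp (θ * Complex.I))) (𝓝[>] 1) (𝓝 c₀) ∧
        Tendsto (fun n : ℕ => Real.log ‖deriv ((f d c₀)^[n]) c₀‖ / n) atTop (𝓝 (Real.log d)) ∧
        Scaling d (Real.log d) c₀ := by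
  have hdR : (2 : ℝ) ≤ d := by exact_mod_cast hd
  have key : ∀ (χ : ℝ) (c₀ : ℂ), 0 < χ → c₀ ∈ N62a1eb23.multibrotSet d →
      Tendsto (fun n : ℕ => Real.log ‖deriv ((f d c₀)^[n]) c₀‖ / n) atTop (𝓝 χ) →
      Scaling d χ c₀ := by
    intro χ c₀ hχ hc₀ hlim
    have h : Pool.Agent.Y298.CA.Lyap d χ c₀ := ⟨hχ, hc₀, hlim⟩
    have hs := Pool.Agent.Y298.CA.scal_all hd h
    have hHH : hyperbolic d = Pool.Agent.Y298.CA.HH d := rfl
    have hin : inradius = Pool.Agent.Y298.CA.inradius := rfl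
    refine ⟨?_, ?_, ?_, ?_, ?_, ?_⟩
    · intro σ hσ0 hσ
      obtain ⟨C, hC, H⟩ := hs.dens σ hσ0 hσ
      refine ⟨C, hC, fun c hc hcc => ?_⟩
      obtain ⟨⟨c', h1, p, h2, h3, -⟩, c'', h4, h5⟩ := H c hc hcc
      refine ⟨⟨Function.minimalPeriod (f d c') 0, c', ?_, rfl, h1⟩, c'', h5, h4⟩
      exact Function.IsPeriodicPt.minimalPeriod_pos h2 h3
    · unfold HasExponent
      rw [hin]
      exact hs.inM
    · unfold HasExponent
      rw [hin, hHH]
      exact hs.inH
    · exact hs.areaM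
    · unfold HasExponent
      rw [hHH]
      exact hs.areaH
    · intro ε hε
      obtain ⟨δ, hδ, hδχ, H⟩ := Pool.Agent.N253.MS.size_law hd h hε
      refine ⟨δ, hδ, ?_⟩
      filter_upwards [H, Pool.Agent.N253.MS.ex_centre hd h hδ hδχ] with n hn h1
      constructor
      · obtain ⟨c', h2, h3⟩ := h1
        exact ⟨c', h2, h3⟩
      · intro c' hc' hcc
        have hP : Pool.Agent.H712R2.P d n c' = 0 := Pool.Agent.N896.MB.per_zero hc'
        obtain ⟨h2, h3⟩ := hn c' hP hcc
        refine ⟨fun c hc => h2 c ?_, h3⟩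
        rwa [mem_ball, dist_eq_norm]
  refine ⟨key, ?_⟩
  obtain ⟨β, hβ⟩ := Pool.Agent.H713R2.exists_beta (d := d) hd
  refine ⟨⟨_, Pool.Agent.H713R2.exteriorMap_of_beta hβ⟩, ?_⟩
  intro ψ hψ
  filter_upwards [Pool.Agent.Y272.TY.ae_neg' (Pool.Agent.Y272.TY.typical_all hd hβ)] with θ hθ
  obtain ⟨c₀, A, R, h⟩ := hθ
  obtain ⟨h1, h2, h3⟩ := Pool.Agent.Y298.CA.lyap_of_typ hd hβ h
  exact ⟨c₀, h.frontier hd hβ, h.tendsto_psi hβ hψ, h3, key _ c₀ h1 h2 h3⟩

end Pool.Agent.Results.MP_af9036_an.ScalingLaw
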