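import Mathlib
import Pool.Prelude.Def_F_c31e40fa
import Pool.Agent.N228.UC.Cnt

set_option autoImplicit false

open MeasureTheory

namespace Pool.Agent.Results.MP_af9036_an.UnitCircleLengths

/-- The parameters `c` for which `z ^ n + c` has an attracting cycle. -/
def hyp (n : ℕ) : Set ℂ := {c | ∃ m z, N62a1eb23.IsAttractingCycle (fun z => z ^ n + c) m z}

/-- The length of the part of the unit circle lying in the set `A`. -/
noncomputable def len (A : Set ℂ) : ℝ :=
  (volume {θ : ℝ | θ ∈ Set.Icc 0 (2 * Real.pi) ∧ Complex.exp (θ * Complex.I) ∈ A}).toReal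

/-- The degrees `n ≥ 2` for which `c` is in the Multibrot set of power `n` but `z ^ n + c` has no
attracting cycle. -/
def unresolved (c : ℂ) : Set ℕ := {n | 2 ≤ n ∧ c ∈ N62a1eb23.multibrotSet n ∧ c ∉ hyp n}

theorem result :
    -- two-term asymptotics of the lengths of the Multibrot sets and of their hyperbolic parts on
    -- the unit circle; the length of the non-hyperbolic part
    (∀ n : ℕ, 10 ^ 6 ≤ n →
      |len (N62a1eb23.multibrotSet n) - (2 * Real.pi / 3 - 4 / √3 * Real.log n / n)| ≤
        (68 * Real.log (Real.log n) + 1360) / n ∧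
      |len (hyp n) - (2 * Real.pi / 3 - 4 / √3 * Real.log n / n)| ≤
        (68 * Real.log (Real.log n) + 1360) / n ∧
      len (N62a1eb23.multibrotSet n \ hyp n) ≤ (136 * Real.log (Real.log n) + 2720) / n) ∧
    -- weighted sums over the degrees left open, at almost every point of the unit circle
    (∀ a : ℕ → ℝ, (∀ n, 0 ≤ a n) →
      Summable (fun n : ℕ => a n * ((1 + Real.log (1 + Real.log n)) / n)) →
      ∀ᵐ θ : ℝ, Summable ((unresolved (Complex.exp (θ * Complex.I))).indicator a)) ∧
    -- the number of the degrees left open, at almost every point of the unit circle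
    (∀ s : ℝ, 2 < s → ∀ᵐ θ : ℝ, ∃ K : ℝ, ∀ N : ℕ, 3 ≤ N →
      ((unresolved (Complex.exp (θ * Complex.I)) ∩ Set.Iic N).ncard : ℝ) ≤
        K * (Real.log N * (1 + Real.log (Real.log N)) ^ s)) := by
  refine ⟨fun n hn => ?_, fun a ha hs => Pool.Agent.N228.UC.ae_weights ha hs,
    fun s hs => Pool.Agent.N228.UC.ae_count hs⟩
  obtain ⟨h1, h2, h3⟩ := Pool.Agent.N228.UC.len_M hn
  have e1 : 2 * Pool.Agent.N228.UC.er n = (68 * Real.log (Real.log n) + 1360) / n := by
    unfold Pool.Agent.N228.UC.er; ring
  have e2 : 4 * Pool.Agent.N228.UC.er n = (136 * Real.log (Real.log n) + 2720) / n := by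
    unfold Pool.Agent.N228.UC.er; ring
  rw [e1] at h1 h2
  rw [e2] at h3
  exact ⟨h1, h2, h3⟩

end Pool.Agent.Results.MP_af9036_an.UnitCircleLengths
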